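import Pool.Agent.Run7.h221.EX.FAT
import Pool.Agent.Run7.h227.EX.A
import Pool.Agent.Run7.h379.EX.NULA
import Pool.Agent.Run7.h222.EX.DENS
import Pool.Agent.Run7.h270.EX.VOL
import Pool.Agent.Run7.h417.EX.EXPA
import Pool.Agent.Run7.h417.EX.PAR
import Pool.Agent.Run7.h639.EX.CONJ
import Pool.Agent.Run7.h639.EX.LAM
import Pool.Agent.Run7.h669.EX.COARSE
import Pool.Agent.Run7.h598.EX.Rec5
import Pool.Agent.Run7.h598.EX.Stm5
import Pool.Agent.Run7.h221.EX.FAT2
import Pool.Agent.Run7.h13.EX.TRAP2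
import Pool.Agent.Run7.h13.EX.LAMD
import Pool.Agent.Run7.h590.EX.NULA2
import Pool.Agent.Run7.h590.EX.PAR2
import Pool.Agent.Run7.h942.EX.DENS2
import Pool.Agent.Run7.h688.EX.NOINT
import Pool.Agent.Run7.h688.EX.REAL
import Pool.Agent.Run7.h300.EX.SUM
import Pool.Agent.Run7.h155.EX.PSI
import Pool.Agent.Run7.h705.EX.COT
import Pool.Agent.Run7.h705.EX.POS
import Pool.Agent.Run7.h763.EX.KER
import Pool.Agent.Run7.h763.EX.FEQ
import Pool.Agent.Run7.h299.EX.L1
import Pool.Agent.Run7.h221.EX.TRANSV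

/-!
# The exponential family: hyperbolic maps, Julia sets of area zero, invariant line fields

The maps `f_c(z) = e^z + c` and `E_l(z) = l e^z` (one singular value). A map is nice if it has an attracting
cycle, its Julia set has area zero, and it has no invariant line field supported on its Julia set. We
estimate the set of the parameters for which the map is not nice: its area near infinity, and its
Lebesgue density at the parameters whose singular orbit escapes fast, for example at all real `l > 1/e`.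

Method. Parameter plane: if `ξ_n` (the `n`-th point of the singular orbit as a function of the parameter)
has an inverse branch on a rectangle of size `1 × 2π` far to the right, then `ξ_{n+1}` wraps this rectangle
over an annulus; the part over the left half plane consists of parameters with an attracting cycle, the part over a
strip about the imaginary axis is small, and the part over the right half plane is covered by new
rectangles, with a total area of about one half. Dynamical plane: the points whose orbits avoid the trapping half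
plane form a set without interior (normality arguments with Koebe's theorem) and of area zero
(density points). At escaping parameters the transversality `∑ 1/(f^n)'(c) ≠ 0` is proved with the function
`∑ 1/((f^n)'(c) (z - ξ_n))`, which would be an integrable fixed point of the Ruelle operator.

Project EX of helper598, with helper270, 222, 379, 417, 221, 227, 639, 669, 942, 590, 13, 688, 300, 155, 705,
763 and 299.
-/

set_option autoImplicit false

open Filter Topology MeasureTheory Set Metric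

namespace Pool.Agent.Results.MP_70a088_an.ExponentialFamily

/-- The exponential family. -/
noncomputable def f (c : ℂ) : ℂ → ℂ := fun z => Complex.exp z + c

/-- The exponential family in its second normalisation. -/
noncomputable def E (l : ℂ) : ℂ → ℂ := fun z => l * Complex.exp z

/-- The Fatou set of an entire map: the points with a neighbourhood on which the iterates are
equicontinuous for the uniform structure of the Riemann sphere. -/
def fatou (g : ℂ → ℂ) : Set ℂ :=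
  {x | ∃ U ∈ 𝓝 x, ∀ y ∈ U, ∀ V ∈ 𝓝ˢ (Set.diagonal (OnePoint ℂ)),
    ∀ᶠ z in 𝓝 y, ∀ n : ℕ, (((g^[n] y : ℂ) : OnePoint ℂ), ((g^[n] z : ℂ) : OnePoint ℂ)) ∈ V}

/-- The Julia set. -/
def julia (g : ℂ → ℂ) : Set ℂ := (fatou g)ᶜ

/-- `g` has an attracting cycle. -/
def Attracting (g : ℂ → ℂ) : Prop := ∃ (p : ℕ) (z : ℂ), 0 < p ∧ g^[p] z = z ∧ ‖deriv (g^[p]) z‖ < 1

/-- `μ` is an invariant line field of `g`, supported on the set `X` of positive area in the Julia
set. -/
structure LineField (g : ℂ → ℂ) (μ : ℂ → ℂ) (X : Set ℂ) : Prop where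
  meas : Measurable μ
  one : ∀ z ∈ X, ‖μ z‖ = 1
  off : ∀ z, z ∉ X → μ z = 0
  pos : 0 < volume X
  sub : X ⊆ julia g
  inv : ∀ᵐ z : ℂ, μ (g z) * (starRingEnd ℂ (deriv g z) / deriv g z) = μ z

/-- `g` has an attracting cycle, its Julia set has area zero, and it has no invariant line field
supported on its Julia set. -/
def Nice (g : ℂ → ℂ) : Prop :=
  Attracting g ∧ volume (julia g) = 0 ∧ ¬ ∃ (μ : ℂ → ℂ) (X : Set ℂ), LineField g μ X

/-- The orbit of the singular value: `ξ_n(c) = f_c^n(c)`. -/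
noncomputable def xi (n : ℕ) (c : ℂ) : ℂ := (f c)^[n] c

/-- `S_n(c)`: the sum of the real parts of the first `n` points of the singular orbit, the logarithm of
`|(f_c^n)'(c)|`. -/
noncomputable def S (n : ℕ) (c : ℂ) : ℝ := ∑ j ∈ Finset.range n, (xi j c).re

theorem f_eq (c : ℂ) : f c = Pool.Agent.Run7.h598.EX.f c := rfl

theorem julia_eq (g : ℂ → ℂ) : julia g = Pool.Agent.Run7.h598.EX.julia g := rfl

theorem xi_eq (n : ℕ) (c : ℂ) : xi n c = Pool.Agent.Run7.h598.EX.xi n c := rfl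

theorem S_eq (n : ℕ) (c : ℂ) : S n c = Pool.Agent.Run7.h598.EX.S n c := rfl

theorem REC : Pool.Agent.Run7.h598.EX.S_REC :=
  Pool.Agent.Run7.h598.EX.t_REC Pool.Agent.Run7.h270.EX.t_GOP Pool.Agent.Run7.h270.EX.t_VOL
    Pool.Agent.Run7.h270.EX.t_RECT

theorem NULA : Pool.Agent.Run7.h598.EX.S_NULA :=
  Pool.Agent.Run7.h379.EX.t_NULA Pool.Agent.Run7.h270.EX.t_VOL Run7.h417.EX.t_TRAP
    Run7.h417.EX.t_EXPA Pool.Agent.Run7.h227.EX.t_INVB
    (Pool.Agent.Run7.h227.EX.t_HOLE Pool.Agent.Run7.h270.EX.t_RECT)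

theorem nice_of_null (g : ℂ → ℂ) (h1 : Attracting g) (h2 : volume (julia g) = 0) : Nice g := by
  refine ⟨h1, h2, ?_⟩
  rintro ⟨μ, X, h⟩
  exact h.pos.ne' (measure_mono_null h.sub h2)

/-- Good parameters are nice. -/
theorem nice_of_good (c : ℂ) (hc : c ∈ Pool.Agent.Run7.h598.EX.G) : Nice (f c) := by
  obtain ⟨m, hm⟩ := hc
  refine nice_of_null _ ?_ ?_
  · exact Pool.Agent.Run7.h227.EX.t_ATT Run7.h417.EX.t_TRAP c ⟨m, hm⟩
  · exact measure_mono_null
      (Pool.Agent.Run7.h221.EX.FAT.t_FAT Run7.h417.EX.t_TRAP c m hm) (NULA c m hm)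

theorem niceE_of_good (c : ℂ) (hc : c ∈ Pool.Agent.Run7.h598.EX.G) : Nice (E (Complex.exp c)) := by
  obtain ⟨h1, h2, h3⟩ := nice_of_good c hc
  obtain ⟨k1, k2, k3⟩ := Run7.h639.EX.t_CONJ c
  refine nice_of_null _ (k3 h1) ?_
  have h4 : julia (E (Complex.exp c)) = (fun z => z + c) ⁻¹' julia (f c) := k2
  rw [h4]
  have h5 := measure_preimage_add_right (volume : Measure ℂ) c (julia (f c))
  rw [h5]
  exact h2

theorem exists_log (l : ℂ) (h : l ≠ 0) : ∃ c : ℂ, Complex.exp c = l := ⟨Complex.log l, Complex.exp_log h⟩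

/-! ### Second stage: general traps and fast escaping parameters -/

theorem nice_of_good2 (hNULA2 : Pool.Agent.Run7.h598.EX.S_NULA2) (c : ℂ)
    (hc : c ∈ Pool.Agent.Run7.h598.EX.G2) : Nice (f c) := by
  obtain ⟨m, hm⟩ := hc
  refine nice_of_null _ ?_ ?_
  · exact Run7.h13.EX.t_ATT2 Run7.h13.EX.t_TRAP2 c ⟨m, hm⟩
  · exact measure_mono_null
      (Pool.Agent.Run7.h221.EX.FAT2.t_FAT2 Run7.h13.EX.t_TRAP2 c m hm) (hNULA2 c m hm)

theorem niceE_of_nice (c : ℂ) (hc : Nice (f c)) : Nice (E (Complex.exp c)) := by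
  obtain ⟨h1, h2, h3⟩ := hc
  obtain ⟨k1, k2, k3⟩ := Run7.h639.EX.t_CONJ c
  refine nice_of_null _ (k3 h1) ?_
  have h4 : julia (E (Complex.exp c)) = (fun z => z + c) ⁻¹' julia (f c) := k2
  rw [h4]
  have h5 := measure_preimage_add_right (volume : Measure ℂ) c (julia (f c))
  rw [h5]
  exact h2

/-- The singular orbit of `f_c` escapes fast: `Re ξ_n → ∞` and
`(Re ξ_0 + … + Re ξ_{n-1}) / Re ξ_n → 0`. -/
def FastEscaping (c : ℂ) : Prop := Tendsto (fun n : ℕ => (xi n c).re) atTop atTop ∧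
  Tendsto (fun n : ℕ => S n c / (xi n c).re) atTop (𝓝 0)

/-- The set `B` has Lebesgue density zero at the point `z`. -/
def DensityZero (B : Set ℂ) (z : ℂ) : Prop :=
  ∀ ε : ℝ, 0 < ε → ∀ᶠ r in 𝓝[>] (0 : ℝ), volume (closedBall z r ∩ B) ≤ ENNReal.ofReal (ε * r ^ 2)

theorem density_c (hDENS2 : Pool.Agent.Run7.h598.EX.S_DENS2) (c₀ : ℂ)
    (h : Pool.Agent.Run7.h598.EX.Fast c₀) :
    DensityZero (Pool.Agent.Run7.h598.EX.G2)ᶜ c₀ := by
  intro ε hε
  filter_upwards [hDENS2 c₀ h ε hε] with r hr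
  exact hr

theorem density_l (hLAMD : Pool.Agent.Run7.h598.EX.S_LAMD)
    (hGOP2 : Pool.Agent.Run7.h598.EX.S_GOP2) (hNULA2 : Pool.Agent.Run7.h598.EX.S_NULA2) (c₀ : ℂ)
    (h : DensityZero (Pool.Agent.Run7.h598.EX.G2)ᶜ c₀) :
    DensityZero {l : ℂ | ¬ Nice (E l)} (Complex.exp c₀) := by
  intro ε hε
  have h1 := hLAMD (Pool.Agent.Run7.h598.EX.G2)ᶜ c₀ hGOP2.measurableSet.compl h ε hε
  filter_upwards [h1] with r hr
  refine (measure_mono ?_).trans hr
  rintro l ⟨hl, hn⟩
  refine ⟨hl, ?_⟩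
  rintro c rfl hG
  exact hn (niceE_of_nice c (nice_of_good2 hNULA2 c hG))

/-- **The exponential family.**

(1) There is a constant `K` such that in every box `a ≤ Re c ≤ a + 1`, `b ≤ Im c ≤ b + 2π` (`a ≥ 0`) the
set of `c` for which `f_c(z) = e^z + c` has no attracting cycle, or a Julia set of positive area, or an
invariant line field, has area at most `K (a + 1) e^(-a)`.

(2) Every `c₀` with `Re c₀ = a ≥ 0` is within `K (a + 1) e^(-a)` of an open set of parameters for which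
`f_c` has an attracting cycle, a Julia set of area zero and no invariant line field.

(3) The set of `l` with `0 < |l| ≤ R` for which `E_l(z) = l e^z` has no attracting cycle, or a Julia set of
positive area, or an invariant line field, has area at most `K R (1 + log R)`.

(4) For `|l₀| ≥ 1` there is an `l` with `|l - l₀| ≤ K (1 + log |l₀|)` for which `E_l` is nice.

(5) If the singular orbit of `f_{c₀}` escapes fast, then the set of the `c` for which `f_c` is not nice has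
Lebesgue density zero at `c₀`, and the set of the `l` for which `E_l` is not nice has density zero at
`e^(c₀)`.

(6) In particular this holds at every real `c₀ > -1`, and the set of the `l` for which `E_l` is not nice
has density zero at every real `l₀ > 1 / e`. -/
theorem result :
    (∃ K : ℝ, 0 < K ∧ ∀ a b : ℝ, 0 ≤ a →
      volume {c : ℂ | a ≤ c.re ∧ c.re ≤ a + 1 ∧ b ≤ c.im ∧ c.im ≤ b + 2 * Real.pi ∧ ¬ Nice (f c)} ≤
        ENNReal.ofReal (K * (a + 1) * Real.exp (-a))) ∧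
    (∃ K : ℝ, 0 < K ∧ ∀ c₀ : ℂ, 0 ≤ c₀.re →
      ∃ c : ℂ, ‖c - c₀‖ ≤ K * (c₀.re + 1) * Real.exp (-c₀.re) ∧ ∀ᶠ c' in 𝓝 c, Nice (f c')) ∧
    (∃ K : ℝ, 0 < K ∧ ∀ R : ℝ, 1 ≤ R →
      volume {l : ℂ | l ≠ 0 ∧ ‖l‖ ≤ R ∧ ¬ Nice (E l)} ≤
        ENNReal.ofReal (K * R * (1 + Real.log R))) ∧
    (∃ K : ℝ, 0 < K ∧ ∀ l₀ : ℂ, 1 ≤ ‖l₀‖ →
      ∃ l : ℂ, ‖l - l₀‖ ≤ K * (1 + Real.log ‖l₀‖) ∧ l ≠ 0 ∧ ∀ᶠ l' in 𝓝 l, Nice (E l')) ∧
    (∀ c₀ : ℂ, FastEscaping c₀ → DensityZero {c : ℂ | ¬ Nice (f c)} c₀ ∧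
      DensityZero {l : ℂ | ¬ Nice (E l)} (Complex.exp c₀)) ∧
    (∀ x : ℝ, -1 < x → DensityZero {c : ℂ | ¬ Nice (f c)} (x : ℂ)) ∧
    (∀ x : ℝ, Real.exp (-1) < x → DensityZero {l : ℂ | ¬ Nice (E l)} (x : ℂ)) := by
  have hBOX := Pool.Agent.Run7.h270.EX.t_BOX REC Pool.Agent.Run7.h270.EX.t_GOP
    Pool.Agent.Run7.h270.EX.t_RECT
  have hLAM := Run7.h639.EX.t_LAM hBOX Pool.Agent.Run7.h270.EX.t_VOL
  have hGo : IsOpen Pool.Agent.Run7.h598.EX.G := Pool.Agent.Run7.h270.EX.t_GOP.2.1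
  have hGOP2 : Pool.Agent.Run7.h598.EX.S_GOP2 := Run7.h13.EX.t_GOP2 Pool.Agent.Run7.h270.EX.t_GOP
  have hNOINT : Pool.Agent.Run7.h598.EX.S_NOINT :=
    Pool.Agent.Run7.h688.EX.t_NOINT Run7.h13.EX.t_TRAP2 Pool.Agent.Run7.h227.EX.t_INVB
      (Pool.Agent.Run7.h227.EX.t_HOLE Pool.Agent.Run7.h270.EX.t_RECT)
  have hUNB : Pool.Agent.Run7.h598.EX.S_UNB :=
    Pool.Agent.Run7.h688.EX.t_UNB Run7.h13.EX.t_TRAP2 Pool.Agent.Run7.h227.EX.t_INVB hNOINT
  have hPAR2 : Pool.Agent.Run7.h598.EX.S_PAR2 := Pool.Agent.Run7.h590.EX.t_PAR2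
  have hREAL : Pool.Agent.Run7.h598.EX.S_REAL := Pool.Agent.Run7.h688.EX.t_REAL
  have hSUM : Pool.Agent.Run7.h598.EX.S_SUM := Pool.Agent.Run7.h300.EX.t_SUM
  have hPSI : Pool.Agent.Run7.h598.EX.S_PSI := Pool.Agent.Run7.h155.EX.t_PSI hSUM
  have hFEQ : Pool.Agent.Run7.h598.EX.S_FEQ :=
    Pool.Agent.Run7.h763.EX.t_FEQ hSUM Run7.h705.EX.t_COT
  have hL1 : Pool.Agent.Run7.h598.EX.S_L1 :=
    Run7.h299.EX.t_L1 hSUM hPSI Pool.Agent.Run7.h763.EX.t_KER
  have hPOS : Pool.Agent.Run7.h598.EX.S_POS := Run7.h705.EX.t_POS hSUM hPSI hFEQ hL1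
  have hTR : Pool.Agent.Run7.h598.EX.S_TRANSV :=
    Pool.Agent.Run7.h221.EX.TRANSV.t_TRANSV hSUM hPSI hPOS
  have hNULA2 : Pool.Agent.Run7.h598.EX.S_NULA2 :=
    Pool.Agent.Run7.h590.EX.t_NULA2 Pool.Agent.Run7.h270.EX.t_VOL Run7.h13.EX.t_TRAP2
      Pool.Agent.Run7.h227.EX.t_INVB
      (Pool.Agent.Run7.h227.EX.t_HOLE Pool.Agent.Run7.h270.EX.t_RECT) hNOINT hUNB
  have hREC2 : Pool.Agent.Run7.h598.EX.S_REC2 :=
    Pool.Agent.Run7.h598.EX.t_REC2 hGOP2 Pool.Agent.Run7.h270.EX.t_VOL Pool.Agent.Run7.h270.EX.t_RECT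
  have hDENS2 : Pool.Agent.Run7.h598.EX.S_DENS2 :=
    Pool.Agent.Run7.h942.EX.t_DENS2 hREC2 Pool.Agent.Run7.h270.EX.t_GOP hGOP2
      Pool.Agent.Run7.h270.EX.t_VOL Pool.Agent.Run7.h270.EX.t_RECT hPAR2
  have hLAMD : Pool.Agent.Run7.h598.EX.S_LAMD := Run7.h13.EX.t_LAMD Pool.Agent.Run7.h270.EX.t_VOL
  have hcc : ∀ c₀ : ℂ, Pool.Agent.Run7.h598.EX.Fast c₀ → DensityZero {c : ℂ | ¬ Nice (f c)} c₀ := by
    intro c₀ h ε hε
    filter_upwards [density_c hDENS2 c₀ h ε hε] with r hr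
    refine (measure_mono ?_).trans hr
    rintro c ⟨hc, hn⟩
    exact ⟨hc, fun hG => hn (nice_of_good2 hNULA2 c hG)⟩
  have hll : ∀ c₀ : ℂ, Pool.Agent.Run7.h598.EX.Fast c₀ →
      DensityZero {l : ℂ | ¬ Nice (E l)} (Complex.exp c₀) := fun c₀ h =>
    density_l hLAMD hGOP2 hNULA2 c₀ (density_c hDENS2 c₀ h)
  have hCO : Pool.Agent.Run7.h598.EX.S_COARSE :=
    Pool.Agent.Run7.h669.EX.t_COARSE REC
  refine ⟨?_, ?_, ?_, ?_, ?_, ?_, ?_⟩
  · obtain ⟨K, hK, h⟩ := hBOX
    refine ⟨K, hK, fun a b ha => le_trans (measure_mono ?_) (h a b ha)⟩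
    rintro c ⟨h1, h2, h3, h4, h5⟩
    exact ⟨h1, h2, h3, h4, fun hG => h5 (nice_of_good c hG)⟩
  · obtain ⟨K, hK, h⟩ := hCO
    refine ⟨K, hK, fun c₀ hc₀ => ?_⟩
    obtain ⟨c, hcG, hc⟩ := h c₀ hc₀
    refine ⟨c, hc, ?_⟩
    filter_upwards [hGo.mem_nhds hcG] with c' hc'
    exact nice_of_good c' hc'
  · obtain ⟨K, hK, h⟩ := hLAM
    refine ⟨K + 4, by positivity, fun R hR => ?_⟩
    have hlog : 0 ≤ Real.log R := Real.log_nonneg hR
    have hsub : {l : ℂ | l ≠ 0 ∧ ‖l‖ ≤ R ∧ ¬ Nice (E l)} ⊆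
        {l : ℂ | 1 ≤ ‖l‖ ∧ ‖l‖ ≤ R ∧ ∀ c : ℂ, Complex.exp c = l →
          c ∉ Pool.Agent.Run7.h598.EX.G} ∪ closedBall 0 1 := by
      rintro l ⟨h1, h2, h3⟩
      rcases le_total 1 ‖l‖ with h4 | h4
      · left
        refine ⟨h4, h2, ?_⟩
        rintro c rfl hG
        exact h3 (niceE_of_good c hG)
      · right
        simpa using h4
    refine (measure_mono hsub).trans ((measure_union_le _ _).trans ?_)
    refine (add_le_add (h R hR) le_rfl).trans ?_
    rw [Complex.volume_closedBall]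
    have h5 : ENNReal.ofReal 1 ^ 2 * (NNReal.pi : ENNReal) ≤ ENNReal.ofReal (4 * R * (1 + Real.log R)) := by
      rw [ENNReal.ofReal_one, one_pow, one_mul]
      have h6 : (NNReal.pi : ENNReal) = ENNReal.ofReal Real.pi := by
        rw [ENNReal.ofReal]
        congr 1
        exact (Real.toNNReal_coe (r := NNReal.pi)).symm
      rw [h6]
      apply ENNReal.ofReal_le_ofReal
      have h7 := Real.pi_le_four
      nlinarith
    refine (add_le_add le_rfl h5).trans ?_
    rw [← ENNReal.ofReal_add (by positivity) (by positivity)]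
    apply ENNReal.ofReal_le_ofReal
    apply le_of_eq
    ring
  · obtain ⟨K, hK, h⟩ := hCO
    refine ⟨K * Real.exp K, by positivity, fun l₀ hl₀ => ?_⟩
    have hl0 : l₀ ≠ 0 := norm_pos_iff.mp (by linarith)
    have hlog : 0 ≤ Real.log ‖l₀‖ := Real.log_nonneg hl₀
    have hre : (Complex.log l₀).re = Real.log ‖l₀‖ := Complex.log_re l₀
    obtain ⟨c, hcG, hc⟩ := h (Complex.log l₀) (by rw [hre]; exact hlog)
    rw [hre] at hc
    set a : ℝ := Real.log ‖l₀‖ with ha
    have hea : Real.exp a = ‖l₀‖ := Real.exp_log (by linarith)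
    have hsm : (a + 1) * Real.exp (-a) ≤ 1 := by
      rw [Real.exp_neg, ← div_eq_mul_inv, div_le_one (Real.exp_pos a)]
      exact Real.add_one_le_exp a
    have hcK : ‖c - Complex.log l₀‖ ≤ K := by
      refine hc.trans ?_
      rw [mul_assoc]
      calc K * ((a + 1) * Real.exp (-a)) ≤ K * 1 := mul_le_mul_of_nonneg_left hsm hK.le
        _ = K := mul_one K
    refine ⟨Complex.exp c, ?_, Complex.exp_ne_zero c, ?_⟩
    · have h1 : Complex.exp c - l₀ = l₀ * (Complex.exp (c - Complex.log l₀) - 1) := by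
        rw [Complex.exp_sub, Complex.exp_log hl0]
        field_simp
      have h2 : ‖Complex.exp (c - Complex.log l₀) - 1‖ ≤
          ‖c - Complex.log l₀‖ * Real.exp ‖c - Complex.log l₀‖ := by
        have := Complex.norm_exp_sub_sum_le_norm_mul_exp (c - Complex.log l₀) 1
        simpa using this
      rw [h1, norm_mul]
      have h3 : ‖c - Complex.log l₀‖ * Real.exp ‖c - Complex.log l₀‖ ≤
          (K * (a + 1) * Real.exp (-a)) * Real.exp K := by
        apply mul_le_mul hc (Real.exp_le_exp.mpr hcK) (Real.exp_pos _).le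
        positivity
      calc ‖l₀‖ * ‖Complex.exp (c - Complex.log l₀) - 1‖
          ≤ Real.exp a * ((K * (a + 1) * Real.exp (-a)) * Real.exp K) := by
            rw [hea]
            exact mul_le_mul_of_nonneg_left (h2.trans h3) (norm_nonneg _)
        _ = (Real.exp a * Real.exp (-a)) * (K * Real.exp K * (1 + a)) := by ring
        _ = K * Real.exp K * (1 + a) := by
            rw [← Real.exp_add, add_neg_cancel, Real.exp_zero, one_mul]
    · have h4 : IsOpen (Complex.exp '' Pool.Agent.Run7.h598.EX.G) :=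
        Complex.isOpenMap_exp _ hGo
      filter_upwards [h4.mem_nhds ⟨c, hcG, rfl⟩] with l' hl'
      obtain ⟨c', hc', rfl⟩ := hl'
      exact niceE_of_good c' hc'
  · rintro c₀ ⟨h1, h2⟩
    have hF : Pool.Agent.Run7.h598.EX.Fast c₀ := ⟨h1, h2, hTR c₀ h1⟩
    exact ⟨hcc c₀ hF, hll c₀ hF⟩
  · intro x hx
    exact hcc _ (hREAL x hx)
  · intro x hx
    have hx0 : 0 < x := (Real.exp_pos _).trans hx
    have h1 : -1 < Real.log x := by
      rw [Real.lt_log_iff_exp_lt hx0]
      exact hx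
    have h2 := hll _ (hREAL (Real.log x) h1)
    have h3 : Complex.exp ((Real.log x : ℝ) : ℂ) = (x : ℂ) := by
      rw [← Complex.ofReal_exp, Real.exp_log hx0]
    rwa [h3] at h2

end Pool.Agent.Results.MP_70a088_an.ExponentialFamily
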