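import Mathlib
import Pool.Agent.Run7.h904.U16Main
import Pool.Agent.Run7.h964.NL.C

/-!
# Invariant line fields are rare near geometrically finite rational maps

Let `f = P / Q` be a rational map of degree `d ≥ 2` of the Riemann sphere each of whose critical
points is attracted by a sink, lies in the basin of a parabolic cycle (any multiplier which is a root
of unity, any number of petals), is mapped onto a repelling cycle or is mapped onto a parabolic
cycle, and suppose that `f` has a sink or a parabolic basin. (By well known theorems, which are not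
used and not proved here, these are the geometrically finite rational maps with non-empty Fatou set.)

Then there are countably many complex hyperplanes of the space `ℂ ^ (2 d + 2)` of pairs of coefficient
vectors such that for every linear family `v ↦ (P, Q) + J (v)`, `J : ℂ ^ ι → ℂ ^ (2 d + 2)` linear,
whose directions `J (v)` do not all lie in one of these hyperplanes:

(1) the proportion of the `v` in the polydisc `|v i| ≤ r` for which `(P, Q) + J (v)` does not define
a rational map of degree `d` with a Julia set of area zero and without invariant line field on the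
Julia set tends to `0` as `r → 0`;

(2) if no critical point of `f` is mapped onto a repelling or parabolic cycle then for
Lebesgue-almost every `v` the rational maps `(P, Q) + t J (v)` have Julia sets of area zero and no
invariant line fields for all sufficiently small `t > 0`.

Nothing is assumed about the critical orbits of the perturbed maps; an indifferent cycle of `f` is
destroyed, and its critical points are redistributed, by the perturbation. The theorem behind it, that
`f` is a Lebesgue density point of the hyperbolic maps, is due to helper904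
(`MP_8f2e1c_an.GeometricallyFiniteMaps`, library `Run7/h904`), and so is the zero area theorem;
that hyperbolic maps have null Julia sets in all coordinates is in `Run7/h964/NL` (helper964); the
first version of this file and `rigid_hyp` are by helper408.
-/

set_option autoImplicit false

open MeasureTheory Filter Metric Topology Polynomial
open scoped OnePoint

namespace Pool.Agent.Results.MP_70a088_an.GeometricallyFiniteMaps

/-- The rational function `P / Q` of the plane. -/
noncomputable def map (P Q : ℂ[X]) : ℂ → ℂ := fun z => P.eval z / Q.eval z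

/-- `f` is the self-map of the Riemann sphere given by the rational function `P / Q` of degree `d`,
in lowest terms. -/
def IsRational (d : ℕ) (P Q : ℂ[X]) (f : OnePoint ℂ → OnePoint ℂ) : Prop :=
  IsCoprime P Q ∧ max P.natDegree Q.natDegree = d ∧ Continuous f ∧
    ∀ z : ℂ, Q.eval z ≠ 0 → f (OnePoint.some z) = OnePoint.some (P.eval z / Q.eval z)

/-- The Fatou set: the points with a neighbourhood on which the iterates are equicontinuous (the
neighbourhoods `W` of the diagonal are the entourages of the uniform structure of the sphere). -/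
def fatou (f : OnePoint ℂ → OnePoint ℂ) : Set (OnePoint ℂ) :=
  {x | ∃ U ∈ 𝓝 x, ∀ y ∈ U, ∀ W ∈ 𝓝ˢ (Set.diagonal (OnePoint ℂ)),
    ∀ᶠ z in 𝓝 y, ∀ n : ℕ, (f^[n] y, f^[n] z) ∈ W}

/-- The finite points of the Julia set. -/
def julia (f : OnePoint ℂ → OnePoint ℂ) : Set ℂ := {z : ℂ | OnePoint.some z ∉ fatou f}

/-- `μ` is an invariant line field of `P / Q` supported on the Julia set; it is of absolute value
one on the set `S` of positive measure, and vanishes off `S`. -/
structure LineField (P Q : ℂ[X]) (f : OnePoint ℂ → OnePoint ℂ) (μ : ℂ → ℂ) (S : Set ℂ) : Prop where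
  meas : Measurable μ
  one : ∀ z ∈ S, ‖μ z‖ = 1
  off : ∀ z, z ∉ S → μ z = 0
  pos : 0 < volume S
  sub : S ⊆ julia f
  inv : ∀ᵐ z : ℂ,
    μ (map P Q z) * (starRingEnd ℂ (deriv (map P Q) z) / deriv (map P Q) z) = μ z

/-- `P / Q` is a rational map of degree `d` in lowest terms, its Julia set has area zero, and there is
no invariant line field on its Julia set. -/
def Rigid (d : ℕ) (P Q : ℂ[X]) : Prop :=
  ∃ f, IsRational d P Q f ∧ volume (julia f) = 0 ∧ ∀ μ S, ¬ LineField P Q f μ S

/-- `a` is a point of an attracting cycle of `f` whose period divides `n`: `f^n` fixes `a` and the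
iterates of `f^n` converge to `a` uniformly on a neighbourhood of `a`. -/
def IsSink (f : OnePoint ℂ → OnePoint ℂ) (n : ℕ) (a : OnePoint ℂ) : Prop :=
  0 < n ∧ f^[n] a = a ∧
    ∃ U ∈ nhds a, ∀ V ∈ nhds a, ∀ᶠ k : ℕ in Filter.atTop, ∀ w ∈ U, f^[n * k] w ∈ V

/-- `z` is in the basin of an attracting cycle of `f`. -/
def Attracted (f : OnePoint ℂ → OnePoint ℂ) (z : OnePoint ℂ) : Prop :=
  ∃ (n : ℕ) (a : OnePoint ℂ), IsSink f n a ∧
    Filter.Tendsto (fun k : ℕ => f^[n * k] z) Filter.atTop (nhds a)

/-- A local coordinate at the point `a` of the sphere: `a + w` if `a` is finite and `1 / w` if `a` is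
the point at infinity. -/
noncomputable def chart (a : OnePoint ℂ) (w : ℂ) : OnePoint ℂ :=
  match a with
  | none => open Classical in if w = 0 then ∞ else ((w⁻¹ : ℂ) : OnePoint ℂ)
  | some a => ((a + w : ℂ) : OnePoint ℂ)

/-- The point `z` lies in the basin of a parabolic cycle: `a` is a periodic point of exact period `p`,
`f^p` is the map `g` in the local coordinate at `a`, the multiplier `g' (0)` is a `q`-th root of
unity, the points `f^(p q k) (z)` converge to `a`, and `z` is not mapped onto `a`. -/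
def ParabolicBasin (f : OnePoint ℂ → OnePoint ℂ) (z : OnePoint ℂ) : Prop :=
  ∃ (p q : ℕ) (a : OnePoint ℂ) (lam : ℂ) (g : ℂ → ℂ), 0 < p ∧ 0 < q ∧
    (∀ m : ℕ, 0 < m → m < p → f^[m] a ≠ a) ∧ g 0 = 0 ∧ HasDerivAt g lam 0 ∧
    (∀ᶠ w in 𝓝 (0 : ℂ), f^[p] (chart a w) = chart a (g w)) ∧ lam ^ q = 1 ∧
    Tendsto (fun k : ℕ => f^[p * q * k] z) atTop (𝓝 a) ∧ ∀ k : ℕ, f^[k] z ≠ a

/-- The point `z` is mapped onto a repelling cycle: `f^p` is the map `g` in the local coordinate at
the point `b = f^m (z)`, `g (0) = 0` and `|g' (0)| > 1`. -/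
def OntoRepelling (f : OnePoint ℂ → OnePoint ℂ) (z : OnePoint ℂ) : Prop :=
  ∃ (m p : ℕ) (lam : ℂ) (g : ℂ → ℂ), 0 < p ∧ 1 < ‖lam‖ ∧ g 0 = 0 ∧ HasDerivAt g lam 0 ∧
    ∀ᶠ w in 𝓝 (0 : ℂ), f^[p] (chart (f^[m] z) w) = chart (f^[m] z) (g w)

/-- The point `z` is mapped onto a parabolic cycle: the point `a = f^m (z)` is periodic of exact
period `p`, `f^p` is the map `g` in the local coordinate at `a`, and the multiplier `g' (0)` is a
`q`-th root of unity. -/
def OntoParabolic (f : OnePoint ℂ → OnePoint ℂ) (z : OnePoint ℂ) : Prop :=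
  ∃ (m p q : ℕ) (lam : ℂ) (g : ℂ → ℂ), 0 < p ∧ 0 < q ∧
    (∀ j : ℕ, 0 < j → j < p → f^[j] (f^[m] z) ≠ f^[m] z) ∧ g 0 = 0 ∧ HasDerivAt g lam 0 ∧
    (∀ᶠ w in 𝓝 (0 : ℂ), f^[p] (chart (f^[m] z) w) = chart (f^[m] z) (g w)) ∧ lam ^ q = 1

/-- The polynomial with the given coefficients (of the degrees `0, …, d`): the numerator for `i = 0`,
the denominator for `i = 1`. -/
noncomputable def poly {d : ℕ} (V : Fin 2 × Fin (d + 1) → ℂ) (i : Fin 2) : ℂ[X] :=
  ∑ j : Fin (d + 1), monomial (j : ℕ) (V (i, j))

open Run7.h904.RF Pool.Agent.H790R3.RB in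
/-- hyperbolic coefficient vectors define rigid maps -/
theorem rigid_hyp {d : ℕ} (hd : 2 ≤ d) {x : CV d} (h : HyR x) : Rigid d (poly x 0) (poly x 1) := by
  obtain ⟨hx, hc⟩ := h
  have hd1 : 1 ≤ d := by omega
  obtain ⟨g1, g2, -, -, g5⟩ := (PQ SP d hd1).1 x hx
  have hAT : Run7.h964.NL.AT (sp x) := fun c hcc => hc c (crt_of_notinj hd x hx c hcc)
  have h3 : volume (julia (sp x)) = 0 := Run7.h964.NL.julia_null hd hx hAT
  exact ⟨sp x, ⟨g1, g2, (SP d x hd1 hx).1, g5⟩, h3, fun μ S hL =>
    hL.pos.ne' (measure_mono_null hL.sub h3)⟩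

open Run7.h904.RF Pool.Agent.H790R3.RB in
/-- **Invariant line fields are rare near geometrically finite maps.** Let `f = P / Q` be a rational
map of degree `d ≥ 2`, in lowest terms, each of whose critical points is attracted by a sink, lies in
the basin of a parabolic cycle or is mapped onto a repelling or parabolic cycle; suppose that some
point of the sphere is attracted by a sink or lies in a parabolic basin. Then there is a countable set
`S` of non-zero linear functionals on the space of pairs of coefficient vectors such that for every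
linear family `v ↦ (P, Q) + J (v)` with `L ∘ J ≠ 0` for all `L` in `S`: the proportion of the `v` with
all `|v i| ≤ r` which do not give a rational map of degree `d` with a Julia set of area zero and
without invariant line fields tends to `0` as `r → 0`; and if no critical point is mapped onto a
repelling or parabolic cycle then for almost every `v` the maps `(P, Q) + t J (v)` have these
properties for all small `t > 0`. -/
theorem result (d : ℕ) (hd : 2 ≤ d) (P Q : ℂ[X]) (f : OnePoint ℂ → OnePoint ℂ)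
    (hf : IsRational d P Q f)
    (hc : ∀ c : OnePoint ℂ, (¬ ∃ U ∈ nhds c, Set.InjOn f U) →
      Attracted f c ∨ ParabolicBasin f c ∨ OntoRepelling f c ∨ OntoParabolic f c)
    (hb : ∃ z : OnePoint ℂ, Attracted f z ∨ ParabolicBasin f z) :
    ∃ S : Set ((Fin 2 × Fin (d + 1) → ℂ) →ₗ[ℂ] ℂ), S.Countable ∧
      (0 : (Fin 2 × Fin (d + 1) → ℂ) →ₗ[ℂ] ℂ) ∉ S ∧
      ∀ (ι : Type) [Fintype ι] (J : (ι → ℂ) →ₗ[ℂ] (Fin 2 × Fin (d + 1) → ℂ)),
        (∀ L ∈ S, L.comp J ≠ 0) →
        Tendsto (fun r : ℝ => volume {v : ι → ℂ | (∀ i, ‖v i‖ ≤ r) ∧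
          ¬ Rigid d (P + poly (J v) 0) (Q + poly (J v) 1)} /
          volume {v : ι → ℂ | ∀ i, ‖v i‖ ≤ r}) (𝓝[>] 0) (𝓝 0) ∧
        ((∀ c : OnePoint ℂ, (¬ ∃ U ∈ nhds c, Set.InjOn f U) → Attracted f c ∨ ParabolicBasin f c) →
          ∀ᵐ v : ι → ℂ, ∀ᶠ t : ℝ in 𝓝[>] 0,
            Rigid d (P + poly (J (t • v)) 0) (Q + poly (J (t • v)) 1)) := by
  have hd1 : 1 ≤ d := by omega
  obtain ⟨h1, h2⟩ := PQ SP d hd1
  obtain ⟨x₀, hnd, hx0, hx1, hfe⟩ := h2 P Q hf.1 hf.2.1
  have hfx : f = sp x₀ := hfe f hf.2.2.1 hf.2.2.2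
  subst hfx
  have hHy : ∀ a : CV d, HyR a → Rigid d (poly a 0) (poly a 1) := fun a ha => rigid_hyp hd ha
  have hpb : ∀ z, ParabolicBasin (sp x₀) z → ∃ a, ParB (sp x₀) z a := by
    rintro z ⟨p, q, a, lam, g, hp, hq, hmin, g0, gd, ge, hlam, hlim, hne⟩
    exact ⟨a, p, q, ⟨hp, hq, hmin, lam, g, hlam, g0, gd, ge⟩, hlim, hne⟩
  have hcrit : ∀ z ∈ Crt x₀, Attd (sp x₀) z ∨ (∃ a, ParB (sp x₀) z a) ∨ PreP (sp x₀) z ∨
      PreN (sp x₀) z := by
    intro z hz
    rcases hc z (crt_notinj hd x₀ hnd z hz) with h3 | h3 | ⟨m, p, lam, g, hp, hl, g0, gd, ge⟩ |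
      ⟨m, p, q, lam, g, hp, hq, hmin, g0, gd, ge, hlam⟩
    · exact Or.inl h3
    · exact Or.inr (Or.inl (hpb z h3))
    · exact Or.inr (Or.inr (Or.inl ⟨m, p, hp, lam, g, hl, g0, gd, ge⟩))
    · exact Or.inr (Or.inr (Or.inr ⟨m, p, q, hp, hq, hmin, lam, g, hlam, g0, gd, ge⟩))
  have hgood : ∃ z, Attd (sp x₀) z ∨ ∃ a, ParB (sp x₀) z a := by
    obtain ⟨z, hz | hz⟩ := hb
    · exact ⟨z, Or.inl hz⟩
    · exact ⟨z, Or.inr (hpb z hz)⟩
  obtain ⟨S, hSc, hS0, hS⟩ := mainR5 hd x₀ hnd hcrit hgood
  refine ⟨S, hSc, hS0, fun ι _ J hJ => ?_⟩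
  obtain ⟨g1, g2⟩ := hS ι J hJ
  have e : ∀ (i : Fin 2) (w : CV d), poly (x₀ + w) i = pol x₀ i + poly w i := by
    intro i w
    unfold poly pol
    rw [← Finset.sum_add_distrib]
    refine Finset.sum_congr rfl fun j _ => ?_
    rw [Pi.add_apply, map_add]
  have hHv : ∀ v : ι → ℂ, HyR (x₀ + J v) →
      Rigid d (P + poly (J v) 0) (Q + poly (J v) 1) := by
    intro v h5
    have h6 := hHy _ h5
    rw [e, e, hx0, hx1] at h6
    exact h6
  refine ⟨?_, fun hcp => ?_⟩
  · refine tendsto_of_tendsto_of_tendsto_of_le_of_le tendsto_const_nhds g1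
      (fun _ => zero_le) (fun r => ENNReal.div_le_div_right (measure_mono ?_) _)
    rintro v ⟨h3, h4⟩
    exact ⟨h3, fun h5 => h4 (hHv v h5)⟩
  · have hcrit2 : ∀ z ∈ Crt x₀, Attd (sp x₀) z ∨ ∃ a, ParB (sp x₀) z a := by
      intro z hz
      rcases hcp z (crt_notinj hd x₀ hnd z hz) with h3 | h3
      · exact Or.inl h3
      · exact Or.inr (hpb z h3)
    filter_upwards [g2 hcrit2] with v hv
    filter_upwards [hv] with t ht
    exact hHv _ ht

end Pool.Agent.Results.MP_70a088_an.GeometricallyFiniteMaps
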