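import Mathlib
import Pool.Agent.Run7.h964.NL.C

/-!
# Invariant line fields of rational maps in Moebius orbits and near the constants

For a rational map `f = P / Q` of degree `d ≥ 2` and an invertible matrix `m` let `m ∘ f` be the
rational map `(m₁₁ P + m₁₂ Q) / (m₂₁ P + m₂₂ Q)` of degree `d`. The Julia set of `m ∘ f` has area zero,
and `m ∘ f` carries no invariant line field on its Julia set,

* for most `m` in the group of Moebius maps, uniformly in all `f` of degree `d`: of the matrices with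
  `1 ≤ max |m_ij| ≤ 2` and `0 < |det m| ≤ ε` (their volume is at least `ε ^ 2`) only a set of volume
  `K d ε ^ 3` is exceptional, and there is a good `m` with determinant one and entries bounded by
  `82 √d`;
* for all invertible `m` close to a matrix of rank one which collapses the sphere without the point
  `a` to the point `b`, if `f b ≠ a` and `a` is not a critical value of `f`.

The same holds for all rational maps of degree `d` near the constant pair `(b₁ H, b₂ H)`, if the form
`H` of degree `d` has simple zeros and does not vanish at `b`; if it has multiple zeros (and `H b ≠ 0`)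
the proportion of the exceptional maps in the ball of radius `r` around the pair is `O (r ^ (2 / d))`.

Nothing is assumed about `f`. The good maps are those for which a disc is mapped well
inside itself and contains the first or second images of all critical points. That the Julia set of
such a map is a null set is derived from the theorem of helper904 on geometrically finite maps
(`Run7/h904/Z9Zero`); the estimates are those of my files `FM` and `CS` (results
`UniformCoarseDensity`, `ConstantStratum` of `MP_8f2e1c_an`), repeated here for the uniform notion of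
attracting cycles.
-/

set_option autoImplicit false

open MeasureTheory Polynomial Filter Topology

namespace Pool.Agent.Results.MP_70a088_an.MoebiusOrbits

/-- The rational function `P / Q` of the plane. -/
noncomputable def map (P Q : ℂ[X]) : ℂ → ℂ := fun z => P.eval z / Q.eval z

/-- `f` is the self-map of the Riemann sphere given by the rational function `P / Q` of degree `d`,
in lowest terms. -/
def IsRational (d : ℕ) (P Q : ℂ[X]) (f : OnePoint ℂ → OnePoint ℂ) : Prop :=
  IsCoprime P Q ∧ max P.natDegree Q.natDegree = d ∧ Continuous f ∧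
    ∀ z : ℂ, Q.eval z ≠ 0 → f (OnePoint.some z) = OnePoint.some (P.eval z / Q.eval z)

/-- The Fatou set: the points with a neighbourhood on which the iterates are equicontinuous (the
neighbourhoods `W` of the diagonal are the entourages of the uniform structure of the sphere). -/
def fatou (f : OnePoint ℂ → OnePoint ℂ) : Set (OnePoint ℂ) :=
  {x | ∃ U ∈ 𝓝 x, ∀ y ∈ U, ∀ W ∈ 𝓝ˢ (Set.diagonal (OnePoint ℂ)),
    ∀ᶠ z in 𝓝 y, ∀ n : ℕ, (f^[n] y, f^[n] z) ∈ W}

/-- The finite points of the Julia set. -/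
def julia (f : OnePoint ℂ → OnePoint ℂ) : Set ℂ := {z : ℂ | OnePoint.some z ∉ fatou f}

/-- `μ` is an invariant line field of `P / Q` supported on the Julia set; it is of absolute value
one on the set `S` of positive measure, and vanishes off `S`. -/
structure LineField (P Q : ℂ[X]) (f : OnePoint ℂ → OnePoint ℂ) (μ : ℂ → ℂ) (S : Set ℂ) : Prop where
  meas : Measurable μ
  one : ∀ z ∈ S, ‖μ z‖ = 1
  off : ∀ z, z ∉ S → μ z = 0
  pos : 0 < volume S
  sub : S ⊆ julia f
  inv : ∀ᵐ z : ℂ,
    μ (map P Q z) * (starRingEnd ℂ (deriv (map P Q) z) / deriv (map P Q) z) = μ z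

/-- `P / Q` is a rational map of degree `d` in lowest terms, its Julia set has area zero, and there is
no invariant line field on its Julia set. -/
def Rigid (d : ℕ) (P Q : ℂ[X]) : Prop :=
  ∃ f, IsRational d P Q f ∧ volume (julia f) = 0 ∧ ∀ μ S, ¬ LineField P Q f μ S

/-- A complex `2 × 2` matrix, given by its rows. `‖m‖` is the maximum of the absolute values of the
four entries; `volume` is the Lebesgue measure of `ℂ⁴`. -/
abbrev Mat : Type := (ℂ × ℂ) × (ℂ × ℂ)

/-- The determinant. -/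
def det (m : Mat) : ℂ := m.1.1 * m.2.2 - m.1.2 * m.2.1

/-- The numerator of `m ∘ (P / Q)`. -/
noncomputable def num (m : Mat) (P Q : ℂ[X]) : ℂ[X] := C m.1.1 * P + C m.1.2 * Q

/-- The denominator of `m ∘ (P / Q)`. -/
noncomputable def den (m : Mat) (P Q : ℂ[X]) : ℂ[X] := C m.2.1 * P + C m.2.2 * Q

/-- The matrices with `1 ≤ max |m_ij| ≤ 2` and `0 < |det m| ≤ ε`. -/
def Far (ε : ℝ) : Set Mat := {m | 1 ≤ ‖m‖ ∧ ‖m‖ ≤ 2 ∧ ‖det m‖ ≤ ε ∧ det m ≠ 0}

/-- The point `u / v` of the sphere with the homogeneous coordinates `p = (u, v)`. -/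
noncomputable def point (p : ℂ × ℂ) : OnePoint ℂ :=
  open Classical in if p.2 = 0 then OnePoint.infty else OnePoint.some (p.1 / p.2)

/-- The matrix of the linear map `w ↦ (a₁ w₂ - a₂ w₁) b`. It has rank one and collapses the sphere
without the point `a` to the point `b`. -/
def collapse (a b : ℂ × ℂ) : Mat := ((b.1 * -a.2, b.1 * a.1), (b.2 * -a.2, b.2 * a.1))

/-- The coefficients of a pair of polynomials of degree at most `d`. -/
abbrev Coeffs (d : ℕ) : Type := Fin 2 × Fin (d + 1) → ℂ

/-- The two polynomials with the given coefficients. -/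
noncomputable def poly {d : ℕ} (x : Coeffs d) (i : Fin 2) : Polynomial ℂ :=
  ∑ j : Fin (d + 1), Polynomial.monomial (j : ℕ) (x (i, j))

/-- The coefficients of the rational maps of degree `d`. -/
def Rat (d : ℕ) : Set (Coeffs d) :=
  {x | IsCoprime (poly x 0) (poly x 1) ∧ max (poly x 0).natDegree (poly x 1).natDegree = d}

/-- The binary form `∑ H_j u^j v^(d-j)` at `p = (u, v)`. -/
noncomputable def form {d : ℕ} (H : Fin (d + 1) → ℂ) (p : ℂ × ℂ) : ℂ :=
  ∑ j : Fin (d + 1), H j * (p.1 ^ (j : ℕ) * p.2 ^ (d - (j : ℕ)))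

/-- The partial derivative of the form with respect to `u`. -/
noncomputable def formU {d : ℕ} (H : Fin (d + 1) → ℂ) (p : ℂ × ℂ) : ℂ :=
  ∑ j : Fin (d + 1), H j * (((j : ℕ) : ℂ) * p.1 ^ ((j : ℕ) - 1) * p.2 ^ (d - (j : ℕ)))

/-- The partial derivative of the form with respect to `v`. -/
noncomputable def formV {d : ℕ} (H : Fin (d + 1) → ℂ) (p : ℂ × ℂ) : ℂ :=
  ∑ j : Fin (d + 1), H j * (((d - (j : ℕ) : ℕ) : ℂ) * p.1 ^ (j : ℕ) * p.2 ^ (d - (j : ℕ) - 1))

/-- The pair `(b₁ H, b₂ H)`. -/
def constPair {d : ℕ} (b : ℂ × ℂ) (H : Fin (d + 1) → ℂ) : Coeffs d :=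
  fun r => (if r.1 = 0 then b.1 else b.2) * H r.2

open Pool.Agent.H790R3.RB Run7.h964.CS Run7.h964.FM

theorem rigid_of {d : ℕ} (hd : 2 ≤ d) {x : CV d} (hx : ND x) (h : Run7.h964.NL.AT (sp x)) :
    Rigid d (pol x 0) (pol x 1) := by
  obtain ⟨h1, h2⟩ := PQ.part1 (by omega : 1 ≤ d) x hx
  have h3 : volume (julia (sp x)) = 0 := Run7.h964.NL.julia_null hd hx h
  refine ⟨sp x, ⟨h1, h2, SP.sp_cont hx, fun z hz => PQ.sp_eval x z hz⟩, h3, fun μ S hL => ?_⟩
  exact hL.pos.ne' (measure_mono_null hL.sub h3)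

theorem rigid_cm {d : ℕ} (hd : 2 ≤ d) {x : CV d} (hx : ND x) {P Q : ℂ[X]} (hP : pol x 0 = P)
    (hQ : pol x 1 = Q) {m : Mat} (hm : det m ≠ 0) (h : Run7.h964.NL.AT (sp (cm m x))) :
    Rigid d (num m P Q) (den m P Q) := by
  have hn := nd_cm (m := m) hm hx
  obtain ⟨e1, e2⟩ := pol_cm m x
  rw [hP, hQ] at e1 e2
  have h1 := rigid_of hd hn h
  rw [e1, e2] at h1
  exact h1

theorem nd_of_rat {d : ℕ} (hd : 1 ≤ d) {x : CV d} (hx : x ∈ Rat d) : ND x := by
  obtain ⟨y, hy, hP, hQ, -⟩ := (PQ SP d hd).2 (poly x 0) (poly x 1) hx.1 hx.2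
  have hyx : y = x := by
    have h2 : ∀ i : Fin 2, i ≠ 0 → i = 1 := by decide
    funext r
    obtain ⟨i, j⟩ := r
    rw [← PQ.pol_coeff y i j, ← PQ.pol_coeff x i j]
    by_cases hi : i = 0
    · subst hi; rw [hP]; rfl
    · rw [h2 i hi, hQ]; rfl
  rw [← hyx]
  exact hy

/-- near rank one matrices -/
theorem near_collapse {d : ℕ} (hd : 2 ≤ d) {x : CV d} (hx : ND x) {a b : ℂ × ℂ} (ha : a ≠ 0)
    (hb : b ≠ 0) (h1 : cx a (hF x b) ≠ 0)
    (h2 : ∀ c : ℂ × ℂ, c ≠ 0 → wr x c = 0 → cx a (hF x c) ≠ 0) :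
    ∃ r : ℝ, 0 < r ∧ ∀ m : Mat, dt m ≠ 0 → ‖m - rk a b‖ ≤ r → Run7.h964.NL.AT (sp (cm m x)) := by
  set H : Fin (d + 1) → ℂ := a.1 • row x 1 - a.2 • row x 0 with hH
  have hfm : ∀ p, fm H p = cx a (hF x p) := fun p => fm_cr x a p
  obtain ⟨r, hr, hr2⟩ := Run7.h964.NL.simple_hyp_at hd hb (H := H) (by rw [hfm]; exact h1) (by
    rintro c hc ⟨hc1, hc2⟩
    have hd0 : (d : ℂ) ≠ 0 := by exact_mod_cast (by omega : d ≠ 0)
    have h0 : fm H c = 0 := by
      have h3 := euler H c
      rw [hc1, hc2, mul_zero, mul_zero, add_zero] at h3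
      exact (mul_eq_zero.1 h3).resolve_left hd0
    refine h2 c hc ?_ (by rw [← hfm]; exact h0)
    rw [hH, fm1_sub, fm1_smul, fm1_smul] at hc1
    rw [hH, fm2_sub, fm2_smul, fm2_smul] at hc2
    rw [wr_eq]
    unfold cx
    simp only
    by_contra hne
    apply ha
    refine Prod.ext ?_ ?_
    · refine (mul_eq_zero.1 (?_ : a.1 * (fm1 (row x 0) c * fm2 (row x 1) c -
        fm1 (row x 1) c * fm2 (row x 0) c) = 0)).resolve_right hne
      linear_combination fm1 (row x 0) c * hc2 - fm2 (row x 0) c * hc1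
    · refine (mul_eq_zero.1 (?_ : a.2 * (fm1 (row x 0) c * fm2 (row x 1) c -
        fm1 (row x 1) c * fm2 (row x 0) c) = 0)).resolve_right hne
      linear_combination fm1 (row x 1) c * hc2 - fm2 (row x 1) c * hc1)
  have hc : ContinuousAt (fun m : Mat => cm m x) (rk a b) := (cm_cont x).continuousAt
  obtain ⟨δ, hδ, hδ2⟩ := Metric.continuousAt_iff.1 hc r hr
  refine ⟨δ / 2, by positivity, fun m hm hmd => hr2 _ (nd_cm hm hx) ?_⟩
  have h3 := hδ2 (x := m) (by rw [dist_eq_norm]; linarith)
  rw [cm_rk, dist_eq_norm] at h3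
  exact h3.le

/-- **Invariant line fields are rare in all Moebius orbits and near the constants.** There is
`K > 0` such that for all `d ≥ 2`:

(1) for ALL rational maps `P / Q` of degree `d` and `0 < ε ≤ 1`: the matrices `m` with
`1 ≤ max |m_ij| ≤ 2` and `0 < |det m| ≤ ε` have volume at least `ε ^ 2`, and those of them for which the
Julia set of `m ∘ (P / Q)` has positive area or carries an invariant line field have volume at
most `K d ε ^ 3`; for some `m` of determinant one with entries of modulus at most `82 √d` the Julia set of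
`m ∘ (P / Q)` has area zero and carries no invariant line field;

(2) let `f` be the map `P / Q` of the sphere, and `a`, `b` points (in homogeneous coordinates) such
that `f b ≠ a` and `a` is not a critical value of `f`; then for all invertible matrices `m` in a
neighbourhood of the matrix `collapse a b`, the Julia set of `m ∘ (P / Q)` has area zero and carries
no invariant line field;

(3) let `H` be a binary form of degree `d` and `H b ≠ 0`. If `H` has no multiple zeros then the Julia
sets of all rational maps of degree `d` in a neighbourhood of `(b₁ H, b₂ H)` have area zero and carry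
no invariant line fields; in all cases the other rational maps of degree `d` in the ball of
radius `r ≤ 1` around the pair are a proportion of at most `C r ^ (2 / d)`. -/
theorem result : ∃ K : ℝ, 0 < K ∧ ∀ d : ℕ, 2 ≤ d →
    (∀ P Q : ℂ[X], IsCoprime P Q → max P.natDegree Q.natDegree = d →
      (∀ ε : ℝ, 0 < ε → ε ≤ 1 → ENNReal.ofReal (ε ^ 2) ≤ volume (Far ε) ∧
        volume {m : Mat | m ∈ Far ε ∧ ¬ Rigid d (num m P Q) (den m P Q)} ≤
          ENNReal.ofReal (K * d * ε ^ 3)) ∧
      (∃ m : Mat, det m = 1 ∧ ‖m‖ ≤ 82 * √d ∧ Rigid d (num m P Q) (den m P Q)) ∧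
      ∀ f : OnePoint ℂ → OnePoint ℂ, IsRational d P Q f → ∀ a b : ℂ × ℂ, a ≠ 0 → b ≠ 0 →
        f (point b) ≠ point a → (∀ c, (¬ ∃ U ∈ nhds c, Set.InjOn f U) → f c ≠ point a) →
        ∃ r : ℝ, 0 < r ∧ ∀ m : Mat, det m ≠ 0 → ‖m - collapse a b‖ ≤ r →
          Rigid d (num m P Q) (den m P Q)) ∧
    ∀ (b : ℂ × ℂ) (H : Fin (d + 1) → ℂ), b ≠ 0 → form H b ≠ 0 →
      ((∀ c : ℂ × ℂ, c ≠ 0 → ¬ (formU H c = 0 ∧ formV H c = 0)) →
        ∃ r : ℝ, 0 < r ∧ ∀ x ∈ Rat d, ‖x - constPair b H‖ ≤ r → Rigid d (poly x 0) (poly x 1)) ∧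
      ∃ C : ℝ, 0 < C ∧ ∀ r : ℝ, 0 < r → r ≤ 1 →
        volume ({x | x ∈ Rat d ∧ ¬ Rigid d (poly x 0) (poly x 1)} ∩
            Metric.closedBall (constPair b H) r) ≤
          ENNReal.ofReal (C * r ^ ((2 : ℝ) / d)) * volume (Metric.closedBall (constPair b H) r) := by
  have hK : 0 < Run7.h964.FM.KK := by
    unfold Run7.h964.FM.KK
    positivity
  have hpi := Real.pi_gt_three
  refine ⟨746496 * Real.pi * Run7.h964.FM.KK, by positivity, fun d hd => ⟨fun P Q hc hdeg => ?_,
    fun b H hb hH => ?_⟩⟩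
  · obtain ⟨x, hx, hP, hQ, hu⟩ := (PQ SP d (by omega)).2 P Q hc hdeg
    refine ⟨fun ε hε hε1 => ⟨Run7.h964.FM.Small_ge hε hε1, ?_⟩, ?_, ?_⟩
    · refine le_trans (measure_mono ?_) (Run7.h964.NL.Small_bad_at hd hx hε hε1)
      rintro m ⟨h1, h2⟩
      exact ⟨h1, fun h3 => h2 (rigid_cm hd hx hP hQ h1.2.2.2 h3)⟩
    · obtain ⟨m, h1, h2, h3⟩ := Run7.h964.NL.exists_matrix_at hd hx
      refine ⟨m, h1, h2, rigid_cm hd hx hP hQ ?_ h3⟩
      have h4 : det m = 1 := h1
      rw [h4]
      exact one_ne_zero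
    · intro f hf a b ha hb h1 h2
      obtain rfl := hu f hf.2.2.1 hf.2.2.2
      have key : ∀ p : ℂ × ℂ, p ≠ 0 → cx a (hF x p) = 0 → sp x (pr p) = pr a := by
        intro p hp h0
        rw [SP.sp_pr hx hp, SP.pr_eq_iff (fun h0 => hp (hx _ h0)) ha]
        have h3 : cx (hF x p) a = 0 := by rw [cx_swap, h0, neg_zero]
        exact h3
      obtain ⟨r, hr, hr2⟩ := near_collapse hd hx ha hb (fun h0 => h1 (key b hb h0))
        (fun c hc hw h0 => h2 (pr c) (crit_top hd hx hc hw) (key c hc h0))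
      exact ⟨r, hr, fun m hm hmd => rigid_cm hd hx hP hQ hm (hr2 m hm hmd)⟩
  · refine ⟨fun hs => ?_, ?_⟩
    · obtain ⟨r, hr, hr2⟩ := Run7.h964.NL.simple_hyp_at hd hb hH hs
      refine ⟨r, hr, fun x hx hxr => ?_⟩
      have hn := nd_of_rat (by omega : 1 ≤ d) hx
      exact rigid_of hd hn (hr2 x hn hxr)
    · obtain ⟨C, hC, hC2⟩ := Run7.h964.NL.density_gen_at hd hb hH (Φ := fun y : CV d => y)
        continuous_id (fun κ y => rfl) (v₀ := st b H) (fun κ => cm_st b κ H) (B := 1) one_pos
        (fun y => by rw [one_mul])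
      refine ⟨C, hC, fun r hr hr1 => le_trans (measure_mono ?_) (hC2 r hr hr1)⟩
      rintro x ⟨⟨h1, h2⟩, h3⟩
      have hn := nd_of_rat (by omega : 1 ≤ d) h1
      exact ⟨⟨hn, fun h4 => h2 (rigid_of hd hn h4)⟩, h3⟩

end Pool.Agent.Results.MP_70a088_an.MoebiusOrbits
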