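import Mathlib
import Pool.Agent.N634.LF.Line
import Pool.Agent.Run7.h408.TPoly
import Pool.Agent.Run7.h408.TCnt

/-!
# Invariant line fields of the trinomials `z ^ n + b z + c`

For every complex number `b` with `|b| ≠ 1` and every degree `n ≥ 2` the trinomial
`T = z ^ n + b z + c` is hyperbolic, its Julia set has area zero and it carries no invariant line
field, for all `c` outside a set of area at most `K n ^ (-1/8) / ||b| - 1| ^ 5`; the constant `K` is
uniform for `b` in a disc. Here `T` has `n - 1` critical points, with different critical values.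

For `c` outside the exceptional set the behaviour of all the critical points is known: if `|b| < 1`
and `|c| < |1 - b|`, `T` has an attracting fixed point and every critical point escapes or converges
to it; in all the other cases all the critical points escape.

Consequently every disc whose radius is the square root of the bound contains such a parameter `c`,
and for almost every `c` the number of the exceptional degrees `n ≤ N` is `O(N ^ s)`, `s > 7 / 8`.

Method. In the disc `|z| ≤ 1 - δ`, `δ = 20 log n / n`, the map `T` is extremely close to the affine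
map `A(z) = b z + c`, and the points outside the disc of radius `1 + δ` escape. So the orbit of a
critical value follows an orbit of `A` until it comes close to the unit circle, and it escapes or
follows an orbit of `A` again. If the orbit is neither attracted by the fixed point of `A` nor
escapes, it comes close to the circle a second time (or close to the repelling fixed point of `A`,
if `|b| > 1`). Then `| |w| - 1| ≤ 2 δ` and `||b ^ k w ^ n + v| - 1| ≤ 2 δ` with two affine functions
`w` and `v` of `c`. Where `w ^ n` is small, these `c` lie in an intersection of two thin annuli, whose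
area is estimated directly; elsewhere the area is estimated with the change of variables formula for
the polynomial `b ^ k w ^ n + v` of `c`, whose degree is `n` and whose derivative is large. The
bounds are summed over the critical points and over `O(log ^ 2 n)` pairs of times.
-/

set_option autoImplicit false

open MeasureTheory Filter Metric Topology Polynomial

namespace Pool.Agent.Results.MP_70a088_an.Trinomials

open Pool.Agent.N634.LF

/-- The trinomial `z ^ n + b z + c`. -/
noncomputable def trinomial (n : ℕ) (b c : ℂ) : ℂ[X] := X ^ n + C b * X + C c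

/-- All the critical points of `T` escape. -/
def AllEscape (T : ℂ[X]) : Prop :=
  ∀ z : ℂ, (derivative T).eval z = 0 → Tendsto (fun k : ℕ => ‖(map T)^[k] z‖) atTop atTop

/-- `T` has an attracting fixed point `a`, and every critical point of `T` escapes or converges to
`a`. -/
def OneBasin (T : ℂ[X]) : Prop :=
  ∃ a : ℂ, map T a = a ∧ ‖(derivative T).eval a‖ < 1 ∧ ∀ z : ℂ, (derivative T).eval z = 0 →
    Tendsto (fun k : ℕ => ‖(map T)^[k] z‖) atTop atTop ∨
      Tendsto (fun k : ℕ => (map T)^[k] z) atTop (𝓝 a)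

/-- The typical behaviour of `z ^ n + b z + c`: one basin if `|b| < 1` and `|c| < |1 - b|`, and
escape of all the critical points otherwise. -/
def Typical (n : ℕ) (b c : ℂ) : Prop :=
  (‖b‖ < 1 ∧ ‖c‖ < ‖1 - b‖ → OneBasin (trinomial n b c)) ∧
    (¬ (‖b‖ < 1 ∧ ‖c‖ < ‖1 - b‖) → AllEscape (trinomial n b c))

theorem hyperbolic_of_typical {n : ℕ} {b c : ℂ} (h : Typical n b c) :
    Hyperbolic (trinomial n b c) := by
  by_cases h1 : ‖b‖ < 1 ∧ ‖c‖ < ‖1 - b‖
  · obtain ⟨a, h2, h3, h4⟩ := h.1 h1
    intro z hz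
    rcases h4 z hz with h5 | h5
    · exact Or.inl h5
    · refine Or.inr ⟨1, one_pos, a, ?_, ?_, ?_⟩
      · rw [Function.iterate_one]; exact h2
      · rw [Function.iterate_one]
        have : deriv (map (trinomial n b c)) a = (derivative (trinomial n b c)).eval a :=
          Polynomial.deriv _
        rw [this]; exact h3
      · simpa using h5
  · exact fun z hz => Or.inl (h.2 h1 z hz)

theorem natDegree_trinomial {n : ℕ} (hn : 2 ≤ n) (b c : ℂ) : (trinomial n b c).natDegree = n :=
  Run7.h408.Tri.natDegree_tri hn b c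

theorem allEscape_of {n : ℕ} {b c : ℂ} (h : Run7.h408.Tri.AllEsc n b c) :
    AllEscape (trinomial n b c) := by
  intro z hz
  have h1 : map (trinomial n b c) = Run7.h408.Tri.f n b c := Run7.h408.Tri.map_tri n b c
  rw [h1]
  apply h z
  rw [← Run7.h408.Tri.eval_der b c z]
  exact hz

theorem oneBasin_of {n : ℕ} {b c : ℂ} (h : Run7.h408.Tri.OneSink n b c) :
    OneBasin (trinomial n b c) := by
  obtain ⟨a, ⟨h1, h2⟩, h3⟩ := h
  have h4 : map (trinomial n b c) = Run7.h408.Tri.f n b c := Run7.h408.Tri.map_tri n b c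
  refine ⟨a, ?_, ?_, fun z hz => ?_⟩
  · rw [h4]; exact h1
  · have h5 : (derivative (trinomial n b c)).eval a = (n : ℂ) * a ^ (n - 1) + b :=
      Run7.h408.Tri.eval_der b c a
    rw [h5]; exact h2
  · rw [h4]
    apply h3 z
    rw [← Run7.h408.Tri.eval_der b c z]
    exact hz

theorem typical_inner {n : ℕ} {b c : ℂ} (hb : ‖b‖ < 1) (h : Run7.h408.Tri.GoodA n b c) :
    Typical n b c := by
  refine ⟨fun h1 => oneBasin_of (h.2 h1.2), fun h1 => allEscape_of (h.1 ?_)⟩
  by_contra h2
  exact h1 ⟨hb, not_le.1 h2⟩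

theorem typical_outer {n : ℕ} {b c : ℂ} (hb : 1 < ‖b‖) (h : Run7.h408.Tri.AllEsc n b c) :
    Typical n b c :=
  ⟨fun h1 => absurd h1.1 hb.le.not_gt, fun _ => allEscape_of h⟩

/-- The bound for the area. -/
theorem area (R : ℝ) : ∃ K : ℝ, 0 < K ∧ ∀ n : ℕ, 2 ≤ n → ∀ b : ℂ, ‖b‖ ≤ R → ‖b‖ ≠ 1 →
    volume {c | ¬ Typical n b c} ≤
      ENNReal.ofReal (K * (n : ℝ) ^ (-(1 / 8) : ℝ) / |‖b‖ - 1| ^ 5) := by
  obtain ⟨K₁, h1, H1⟩ := Run7.h408.Tri.mainA
  obtain ⟨K₂, h2, H2⟩ := Run7.h408.Tri.mainB (max R 1) (le_max_right _ _)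
  refine ⟨K₁ + K₂, by positivity, fun n hn b hb hb1 => ?_⟩
  have hw := Run7.h408.Tri.v5_pos n (by omega)
  rcases lt_or_gt_of_ne hb1 with h | h
  · rw [abs_of_neg (by linarith), neg_sub]
    have h3 : 0 < 1 - ‖b‖ := by linarith
    have hsub : {c | ¬ Typical n b c} ⊆ {c | ¬ Run7.h408.Tri.GoodA n b c} :=
      fun c hc hg => hc (typical_inner h hg)
    refine (measure_mono hsub).trans ((H1 n hn b h).trans (ENNReal.ofReal_le_ofReal ?_))
    gcongr
    linarith
  · rw [abs_of_pos (by linarith)]
    have h3 : 0 < ‖b‖ - 1 := by linarith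
    have hsub : {c | ¬ Typical n b c} ⊆ {c | ¬ Run7.h408.Tri.AllEsc n b c} :=
      fun c hc hg => hc (typical_outer h hg)
    refine (measure_mono hsub).trans ((H2 n hn b h (hb.trans (le_max_left _ _))).trans
      (ENNReal.ofReal_le_ofReal ?_))
    gcongr
    linarith

/-- Most of the trinomials `z ^ n + b z + c` are hyperbolic, and satisfy the conjecture. -/
theorem result :
    -- the typical trinomials are hyperbolic, their Julia sets are null sets and carry no invariant
    -- line fields
    (∀ (n : ℕ) (b c : ℂ), 2 ≤ n → Typical n b c →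
      Hyperbolic (trinomial n b c) ∧ Rigid (trinomial n b c)) ∧
    -- the area of the other parameters, and typical parameters close to all parameters
    (∀ R : ℝ, ∃ K : ℝ, 0 < K ∧ ∀ n : ℕ, 2 ≤ n → ∀ b : ℂ, ‖b‖ ≤ R → ‖b‖ ≠ 1 →
      volume {c | ¬ Typical n b c} ≤
        ENNReal.ofReal (K * (n : ℝ) ^ (-(1 / 8) : ℝ) / |‖b‖ - 1| ^ 5) ∧
      ∀ c₀ : ℂ, ∃ c : ℂ, ‖c - c₀‖ ≤ √(K * (n : ℝ) ^ (-(1 / 8) : ℝ) / |‖b‖ - 1| ^ 5) ∧
        Typical n b c) ∧
    -- the number of the other degrees, at almost every parameter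
    (∀ b : ℂ, ‖b‖ ≠ 1 → ∀ s : ℝ, 7 / 8 < s → ∀ᵐ c : ℂ, ∃ L : ℝ, ∀ N : ℕ,
      (({n | 2 ≤ n ∧ n ≤ N ∧ ¬ Typical n b c} : Set ℕ).ncard : ℝ) ≤ L * (N : ℝ) ^ s) := by
  refine ⟨fun n b c hn h => ?_, fun R => ?_, fun b hb s hs => ?_⟩
  · have h1 := hyperbolic_of_typical h
    exact ⟨h1, h1.rigid (by rw [natDegree_trinomial hn]; exact hn)⟩
  · obtain ⟨K, hK, H⟩ := area R
    refine ⟨K, hK, fun n hn b hb hb1 => ⟨H n hn b hb hb1, fun c₀ => ?_⟩⟩
    have hw := Run7.h408.Tri.v5_pos n (by omega)
    have h3 : 0 < |‖b‖ - 1| := abs_pos.2 (sub_ne_zero.2 hb1)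
    obtain ⟨c, hc1, hc2⟩ := Run7.h408.Tri.exists_near (by positivity) (H n hn b hb hb1) c₀
    exact ⟨c, hc1, not_not.1 hc2⟩
  · obtain ⟨K, hK, H⟩ := area ‖b‖
    have h3 : 0 < |‖b‖ - 1| := abs_pos.2 (sub_ne_zero.2 hb)
    exact Run7.h408.Tri.ae_count_le (E := fun n => {c | ¬ Typical n b c})
      (K := K / |‖b‖ - 1| ^ 5) (by positivity) (fun n hn => (H n hn b le_rfl hb).trans
        (ENNReal.ofReal_le_ofReal (le_of_eq (by ring)))) hs

end Pool.Agent.Results.MP_70a088_an.Trinomials
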